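import Pool.Agent.Shared.Oracle.Basic

/-!
Recursively enumerable predicates: normal form, closure properties, and effective compactness
of Cantor space.
-/

namespace Pool.Agent.Shared.Oracle

open Encodable Nat.Partrec Nat.Partrec.Code

variable {α β σ : Type*} [Primcodable α] [Primcodable β] [Primcodable σ]

theorem prim_forall_lt {f : α → ℕ} {R : ℕ → α → Prop} (hf : Primrec f) (hR : PrimrecRel R) :
    PrimrecPred fun a => ∀ x < f a, R x a :=
  (hR.forall_mem_list.comp (Primrec.list_range.comp hf) Primrec.id).of_eq (by simp)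

theorem prim_exists_lt {f : α → ℕ} {R : ℕ → α → Prop} (hf : Primrec f) (hR : PrimrecRel R) :
    PrimrecPred fun a => ∃ x < f a, R x a :=
  (hR.exists_mem_list.comp (Primrec.list_range.comp hf) Primrec.id).of_eq (by simp)

theorem prim_imp {p q : α → Prop} (hp : PrimrecPred p) (hq : PrimrecPred q) :
    PrimrecPred fun a => p a → q a :=
  (hp.not.or hq).of_eq fun a => by tauto

theorem prim_true {f : α → Bool} (hf : Primrec f) : PrimrecPred fun a => f a = true :=
  Primrec.eq.comp hf (Primrec.const true)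

theorem prim_pow : Primrec₂ ((· ^ ·) : ℕ → ℕ → ℕ) := Primrec₂.unpaired'.1 Nat.Primrec.pow

theorem prim_testBit : Primrec₂ Nat.testBit := by
  have h : PrimrecPred fun p : ℕ × ℕ => p.1 / 2 ^ p.2 % 2 = 1 :=
    Primrec.eq.comp (Primrec.nat_mod.comp (Primrec.nat_div.comp Primrec.fst
      (prim_pow.comp (Primrec.const 2) Primrec.snd)) (Primrec.const 2)) (Primrec.const 1)
  exact h.decide.of_eq fun p => Nat.testBit_eq_decide_div_mod_eq.symm

theorem re_of_exists {q : α → ℕ → Prop} (hq : PrimrecRel q) : REPred fun a => ∃ t, q a t := by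
  classical
  have h : Partrec fun a => Nat.rfind fun t => Part.some (decide (q a t)) :=
    Partrec.rfind hq.decide.to_comp.partrec₂
  refine h.dom_re.of_eq fun a => ?_
  simp [Nat.rfind_dom]

theorem re_normal {p : α → Prop} (hp : REPred p) :
    ∃ q : α → ℕ → Prop, PrimrecRel q ∧ ∀ a, p a ↔ ∃ t, q a t := by
  obtain ⟨c, hc⟩ := exists_code.1 hp
  refine ⟨fun a t => (evaln t c (encode a)).isSome = true, ?_, fun a => ?_⟩
  · exact prim_true (Primrec.option_isSome.comp (primrec_evaln.comp
      ((Primrec.snd.pair (Primrec.const c)).pair (Primrec.encode.comp Primrec.fst))))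
  · have h1 : p a ↔ ∃ x, x ∈ eval c (encode a) := by
      rw [hc]
      simp [Part.mem_assert_iff]
    rw [h1]
    simp only [evaln_complete, Option.isSome_iff_exists, Option.mem_def]
    exact exists_comm

theorem re_comp {p : β → Prop} {f : α → β} (hp : REPred p) (hf : Computable f) :
    REPred fun a => p (f a) :=
  Partrec.comp hp hf

theorem re_of_prim {p : α → Prop} (hp : PrimrecPred p) : REPred p := hp.computablePred.to_re

theorem re_exists {R : α → β → Prop} (h : REPred fun p : α × β => R p.1 p.2) :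
    REPred fun a => ∃ b, R a b := by
  classical
  obtain ⟨q, hq, e⟩ := re_normal h
  have h1 : Primrec fun p : α × ℕ => Option.casesOn (motive := fun _ => Bool)
      (decode (α := β) (Nat.unpair p.2).1) false
      (fun b => decide (q (p.1, b) (Nat.unpair p.2).2)) :=
    Primrec.option_casesOn
      (Primrec.decode.comp (Primrec.fst.comp (Primrec.unpair.comp Primrec.snd)))
      (Primrec.const false)
      (hq.decide.comp ((Primrec.fst.comp Primrec.fst).pair Primrec.snd)
        (Primrec.snd.comp (Primrec.unpair.comp (Primrec.snd.comp Primrec.fst)))).to₂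
  refine (re_of_exists (q := fun a t => Option.casesOn (motive := fun _ => Bool)
      (decode (α := β) (Nat.unpair t).1) false
      (fun b => decide (q (a, b) (Nat.unpair t).2)) = true) (prim_true h1)).of_eq fun a => ?_
  constructor
  · rintro ⟨t, ht⟩
    rcases hd : decode (α := β) (Nat.unpair t).1 with - | b
    · simp [hd] at ht
    · simp only [hd, decide_eq_true_eq] at ht
      exact ⟨b, (e (a, b)).2 ⟨_, ht⟩⟩
  · rintro ⟨b, hb⟩
    obtain ⟨t, ht⟩ := (e (a, b)).1 hb
    exact ⟨Nat.pair (encode b) t, by simpa using ht⟩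

theorem re_and {p q : α → Prop} (hp : REPred p) (hq : REPred q) : REPred fun a => p a ∧ q a := by
  obtain ⟨p', hp', ep⟩ := re_normal hp
  obtain ⟨q', hq', eq⟩ := re_normal hq
  have h : PrimrecPred fun r : (α × ℕ) × ℕ => p' r.1.1 r.1.2 ∧ q' r.1.1 r.2 :=
    (hp'.comp (Primrec.fst.comp Primrec.fst) (Primrec.snd.comp Primrec.fst)).and
      (hq'.comp (Primrec.fst.comp Primrec.fst) Primrec.snd)
  have h2 : REPred fun r : α × ℕ => ∃ t, p' r.1 r.2 ∧ q' r.1 t :=
    re_of_exists (q := fun (r : α × ℕ) t => p' r.1 r.2 ∧ q' r.1 t) h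
  refine (re_exists (R := fun a s => ∃ t, p' a s ∧ q' a t) h2).of_eq fun a => ?_
  rw [ep, eq]
  constructor
  · rintro ⟨s, t, h1, h2⟩; exact ⟨⟨s, h1⟩, t, h2⟩
  · rintro ⟨⟨s, h1⟩, t, h2⟩; exact ⟨s, t, h1, h2⟩

theorem re_or {p q : α → Prop} (hp : REPred p) (hq : REPred q) : REPred fun a => p a ∨ q a := by
  obtain ⟨p', hp', ep⟩ := re_normal hp
  obtain ⟨q', hq', eq⟩ := re_normal hq
  refine (re_of_exists (q := fun a t => p' a t ∨ q' a t) (PrimrecPred.or hp' hq')).of_eq
    fun a => ?_
  rw [ep, eq, exists_or]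

theorem re_mem {f : α →. σ} (hf : Partrec f) : REPred fun p : α × σ => p.2 ∈ f p.1 := by
  classical
  have h1 : Partrec fun p : α × σ => (f p.1).bind fun v =>
      ((if v = p.2 then Option.some () else Option.none : Option Unit) : Part Unit) :=
    Partrec.bind (hf.comp Computable.fst) (Computable.ofOption
      (Primrec.ite (Primrec.eq.comp Primrec.snd (Primrec.snd.comp Primrec.fst))
        (Primrec.const _) (Primrec.const _)).to_comp).to₂
  refine h1.dom_re.of_eq fun p => ?_
  simp [Part.dom_iff_mem]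

theorem isClopen_seg (P : List Bool → Prop) (l : ℕ) : IsClopen {X : ℕ → Bool | P (seg X l)} := by
  have h1 : Continuous fun (X : ℕ → Bool) (i : Fin l) => X i :=
    continuous_pi fun i => continuous_apply _
  have h2 := (isClopen_discrete {f : Fin l → Bool | P (List.ofFn f)}).preimage h1
  convert h2 using 1
  ext X
  have : seg X l = List.ofFn fun i : Fin l => X i := by
    apply List.ext_getElem <;> simp [seg]
  simp [this]

theorem exists_bits (X : ℕ → Bool) (L : ℕ) :
    ∃ m < 2 ^ L, ∀ l ≤ L, seg (Nat.testBit m) l = seg X l :=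
  ⟨Nat.ofBits fun i : Fin L => X i, Nat.ofBits_lt_two_pow _, fun _ hl =>
    seg_congr.2 fun _ hi => Nat.testBit_ofBits_lt _ _ (hi.trans_le hl)⟩

/-- Effective compactness of Cantor space. -/
theorem re_forall_real {w : α → List Bool → Prop} (hw : REPred fun p : α × List Bool => w p.1 p.2) :
    REPred fun a => ∀ X : ℕ → Bool, ∃ l, w a (seg X l) := by
  obtain ⟨q, hq, e⟩ := re_normal hw
  have hseg : Primrec₂ fun m l : ℕ => seg (Nat.testBit m) l :=
    Primrec.list_map (Primrec.list_range.comp Primrec.snd)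
      (prim_testBit.comp (Primrec.fst.comp Primrec.fst) Primrec.snd).to₂
  have h1 : PrimrecPred fun r : ℕ × ℕ × ℕ × α × ℕ =>
      q (r.2.2.2.1, seg (Nat.testBit r.2.2.1) r.2.1) r.1 :=
    hq.comp ((Primrec.fst.comp (Primrec.snd.comp (Primrec.snd.comp Primrec.snd))).pair
      (hseg.comp (Primrec.fst.comp (Primrec.snd.comp Primrec.snd)) (Primrec.fst.comp Primrec.snd)))
      Primrec.fst
  have h2 : PrimrecPred fun r : ℕ × ℕ × α × ℕ =>
      ∃ t < r.2.2.2 + 1, q (r.2.2.1, seg (Nat.testBit r.2.1) r.1) t :=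
    prim_exists_lt (R := fun t (r : ℕ × ℕ × α × ℕ) => q (r.2.2.1, seg (Nat.testBit r.2.1) r.1) t)
      (Primrec.succ.comp (Primrec.snd.comp (Primrec.snd.comp Primrec.snd))) h1
  have h3 : PrimrecPred fun r : ℕ × α × ℕ => ∃ l < r.2.2 + 1,
      ∃ t < r.2.2 + 1, q (r.2.1, seg (Nat.testBit r.1) l) t :=
    prim_exists_lt (R := fun l (r : ℕ × α × ℕ) =>
      ∃ t < r.2.2 + 1, q (r.2.1, seg (Nat.testBit r.1) l) t)
      (Primrec.succ.comp (Primrec.snd.comp Primrec.snd)) h2
  have h4 : PrimrecPred fun r : α × ℕ => ∀ m < 2 ^ r.2, ∃ l < r.2 + 1,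
      ∃ t < r.2 + 1, q (r.1, seg (Nat.testBit m) l) t :=
    prim_forall_lt (R := fun m (r : α × ℕ) => ∃ l < r.2 + 1,
      ∃ t < r.2 + 1, q (r.1, seg (Nat.testBit m) l) t)
      (prim_pow.comp (Primrec.const 2) Primrec.snd) h3
  refine (re_of_exists (q := fun a L => ∀ m < 2 ^ L, ∃ l < L + 1,
      ∃ t < L + 1, q (a, seg (Nat.testBit m) l) t) h4).of_eq fun a => ?_
  constructor
  · rintro ⟨L, hL⟩ X
    obtain ⟨m, hm, em⟩ := exists_bits X L
    obtain ⟨l, hl, t, -, ht⟩ := hL m hm
    rw [em l (Nat.lt_succ_iff.1 hl)] at ht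
    exact ⟨l, (e (a, seg X l)).2 ⟨t, ht⟩⟩
  · intro h
    by_contra hcon
    push Not at hcon
    let K : ℕ → Set (ℕ → Bool) := fun L =>
      {X | ∀ l < L + 1, ∀ t < L + 1, ¬ q (a, seg X l) t}
    have hK : ∀ L, IsClosed (K L) := by
      intro L
      have : K L = ⋂ l : ℕ, {X | l < L + 1 → ∀ t < L + 1, ¬ q (a, seg X l) t} := by
        ext X; simp [K]
      rw [this]
      exact isClosed_iInter fun l =>
        (isClopen_seg (fun σ => l < L + 1 → ∀ t < L + 1, ¬ q (a, σ) t) l).isClosed
    obtain ⟨X, hX⟩ := IsCompact.nonempty_iInter_of_sequence_nonempty_isCompact_isClosed K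
      (fun L X hX l hl t ht => hX l (by omega) t (by omega))
      (fun L => by
        obtain ⟨m, -, hm⟩ := hcon L
        exact ⟨_, hm⟩)
      (hK 0).isCompact hK
    obtain ⟨l, hl⟩ := h X
    obtain ⟨t, ht⟩ := (e (a, seg X l)).1 hl
    exact Set.mem_iInter.1 hX (max l t) l (by omega) t (by omega) ht

theorem computable_of_re {X : α → Bool} (h1 : REPred fun a => X a = true)
    (h0 : REPred fun a => X a = false) : Computable X := by
  have h : ComputablePred fun a => X a = true :=
    ComputablePred.computable_iff_re_compl_re'.2 ⟨h1, h0.of_eq fun a => by simp⟩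
  exact h.decide.of_eq fun a => by simp

theorem countable_partrec : {f : α →. σ | Partrec f}.Countable := by
  have h : ∀ f : {f : α →. σ | Partrec f}, ∃ c : Code, eval c =
      fun n => Part.bind (decode (α := α) n) fun a => (f.1 a).map encode :=
    fun f => exists_code.1 f.2
  choose c hc using h
  refine Set.countable_coe_iff.1 (Function.Injective.countable (f := c) ?_)
  intro f g e
  apply Subtype.ext
  funext a
  have h1 := congrFun (hc f) (encode a)
  have h2 := congrFun (hc g) (encode a)
  rw [e, h2] at h1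
  simp only [encodek, Part.coe_some, Part.bind_some] at h1
  ext v
  have h3 := congrArg (fun o => encode v ∈ o) h1
  simpa using h3.symm

theorem countable_computable : {f : α → σ | Computable f}.Countable := by
  refine Set.countable_of_injective_of_countable_image
    (f := fun f : α → σ => (f : α →. σ)) ?_ (countable_partrec.mono ?_)
  · intro f _ g _ e
    funext a
    have := congrFun e a
    simpa using this
  · rintro _ ⟨f, hf, rfl⟩
    exact hf

theorem exists_enum_functional :
    ∃ F : ℕ → List Bool → ℕ →. ℕ, (∀ s, Functional (F s)) ∧ ∀ G, Functional G → ∃ s, F s = G := by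
  have h1 : {G : List Bool → ℕ →. ℕ | Functional G}.Countable := by
    refine Set.countable_of_injective_of_countable_image
      (f := fun (G : List Bool → ℕ →. ℕ) (p : List Bool × ℕ) => G p.1 p.2) ?_
      (countable_partrec.mono ?_)
    · intro f _ g _ e
      funext a b
      exact congrFun e (a, b)
    · rintro _ ⟨f, hf, rfl⟩
      exact hf.partrec
  obtain ⟨F, hF⟩ := h1.exists_eq_range ⟨_, Functional.of_partrec Nat.Partrec.zero⟩
  refine ⟨F, fun s => ?_, fun G hG => ?_⟩
  · have : F s ∈ {G : List Bool → ℕ →. ℕ | Functional G} := hF ▸ Set.mem_range_self s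
    exact this
  · have : G ∈ Set.range F := hF ▸ hG
    exact this

end Pool.Agent.Shared.Oracle
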