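import Pool.Agent.Shared.Oracle.RE

/-!
`fun_prop` for computable functions.
-/

attribute [fun_prop] Computable

namespace Pool.Agent.Shared.Oracle.FP

open Encodable Nat.Partrec

variable {α β γ σ : Type} [Primcodable α] [Primcodable β] [Primcodable γ] [Primcodable σ]

@[fun_prop] theorem c_id : Computable fun x : α => x := Computable.id

@[fun_prop] theorem c_const (s : σ) : Computable fun _ : α => s := Computable.const s

@[fun_prop] theorem c_comp {f : β → σ} {g : α → β} (hf : Computable f) (hg : Computable g) :
    Computable fun a => f (g a) := hf.comp hg

@[fun_prop] theorem c_fst {f : α → β × γ} (hf : Computable f) : Computable fun a => (f a).1 :=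
  Computable.fst.comp hf

@[fun_prop] theorem c_snd {f : α → β × γ} (hf : Computable f) : Computable fun a => (f a).2 :=
  Computable.snd.comp hf

@[fun_prop] theorem c_mk {f : α → β} {g : α → γ} (hf : Computable f) (hg : Computable g) :
    Computable fun a => (f a, g a) := hf.pair hg

section Nat

variable {f g : α → ℕ}

@[fun_prop] theorem c_add (hf : Computable f) (hg : Computable g) :
    Computable fun a => f a + g a := Primrec.nat_add.to_comp.comp hf hg

@[fun_prop] theorem c_sub (hf : Computable f) (hg : Computable g) :
    Computable fun a => f a - g a := Primrec.nat_sub.to_comp.comp hf hg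

@[fun_prop] theorem c_mul (hf : Computable f) (hg : Computable g) :
    Computable fun a => f a * g a := Primrec.nat_mul.to_comp.comp hf hg

@[fun_prop] theorem c_div (hf : Computable f) (hg : Computable g) :
    Computable fun a => f a / g a := Primrec.nat_div.to_comp.comp hf hg

@[fun_prop] theorem c_mod (hf : Computable f) (hg : Computable g) :
    Computable fun a => f a % g a := Primrec.nat_mod.to_comp.comp hf hg

@[fun_prop] theorem c_pow (hf : Computable f) (hg : Computable g) :
    Computable fun a => f a ^ g a := prim_pow.to_comp.comp hf hg

@[fun_prop] theorem c_max (hf : Computable f) (hg : Computable g) :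
    Computable fun a => max (f a) (g a) := Primrec.nat_max.to_comp.comp hf hg

@[fun_prop] theorem c_min (hf : Computable f) (hg : Computable g) :
    Computable fun a => min (f a) (g a) := Primrec.nat_min.to_comp.comp hf hg

@[fun_prop] theorem c_succ (hf : Computable f) : Computable fun a => (f a).succ :=
  Computable.succ.comp hf

@[fun_prop] theorem c_pair (hf : Computable f) (hg : Computable g) :
    Computable fun a => Nat.pair (f a) (g a) := Primrec₂.natPair.to_comp.comp hf hg

@[fun_prop] theorem c_unpair (hf : Computable f) : Computable fun a => Nat.unpair (f a) :=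
  Computable.unpair.comp hf

@[fun_prop] theorem c_testBit (hf : Computable f) (hg : Computable g) :
    Computable fun a => Nat.testBit (f a) (g a) := prim_testBit.to_comp.comp hf hg

@[fun_prop] theorem c_range (hf : Computable f) : Computable fun a => List.range (f a) :=
  Primrec.list_range.to_comp.comp hf

@[fun_prop] theorem c_decode (hf : Computable f) :
    Computable fun a => (decode (f a) : Option β) := Computable.decode.comp hf

@[fun_prop] theorem c_ofNat {δ : Type} [Denumerable δ] (hf : Computable f) :
    Computable fun a => Denumerable.ofNat δ (f a) := (Computable.ofNat δ).comp hf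

@[fun_prop] theorem c_decide_le {inst : ∀ a, Decidable (f a ≤ g a)} (hf : Computable f)
    (hg : Computable g) : Computable fun a => @decide (f a ≤ g a) (inst a) :=
  (Primrec.nat_le.decide.to_comp.comp hf hg).of_eq fun _ => decide_eq_decide.2 Iff.rfl

@[fun_prop] theorem c_decide_lt {inst : ∀ a, Decidable (f a < g a)} (hf : Computable f)
    (hg : Computable g) : Computable fun a => @decide (f a < g a) (inst a) :=
  (Primrec.nat_lt.decide.to_comp.comp hf hg).of_eq fun _ => decide_eq_decide.2 Iff.rfl

end Nat

@[fun_prop] theorem c_encode {f : α → β} (hf : Computable f) : Computable fun a => encode (f a) :=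
  Computable.encode.comp hf

@[fun_prop] theorem c_encode_code {f : α → Code} (hf : Computable f) :
    Computable fun a => encode (f a) := Computable.encode.comp hf

@[fun_prop] theorem c_curry {f : α → Code} {g : α → ℕ} (hf : Computable f) (hg : Computable g) :
    Computable fun a => Code.curry (f a) (g a) := Code.primrec₂_curry.to_comp.comp hf hg

@[fun_prop] theorem c_evaln {k : α → ℕ} {c : α → Code} {n : α → ℕ} (hk : Computable k)
    (hc : Computable c) (hn : Computable n) : Computable fun a => Code.evaln (k a) (c a) (n a) :=
  Code.primrec_evaln.to_comp.comp ((hk.pair hc).pair hn)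

@[fun_prop] theorem c_decide_eq {f g : α → β} {inst : ∀ a, Decidable (f a = g a)}
    (hf : Computable f) (hg : Computable g) : Computable fun a => @decide (f a = g a) (inst a) := by
  classical
  exact (Primrec.eq.decide.to_comp.comp hf hg).of_eq fun _ => decide_eq_decide.2 Iff.rfl

section Bool

variable {f g : α → Bool}

@[fun_prop] theorem c_not (hf : Computable f) : Computable fun a => !(f a) :=
  Primrec.not.to_comp.comp hf

@[fun_prop] theorem c_and (hf : Computable f) (hg : Computable g) :
    Computable fun a => (f a && g a) := Primrec.and.to_comp.comp hf hg

@[fun_prop] theorem c_or (hf : Computable f) (hg : Computable g) :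
    Computable fun a => (f a || g a) := Primrec.or.to_comp.comp hf hg

@[fun_prop] theorem c_toNat (hf : Computable f) : Computable fun a => (f a).toNat :=
  (Primrec.dom_bool Bool.toNat).to_comp.comp hf

@[fun_prop] theorem c_cond {u v : α → σ} (hf : Computable f) (hu : Computable u)
    (hv : Computable v) : Computable fun a => cond (f a) (u a) (v a) := Computable.cond hf hu hv

end Bool

@[fun_prop] theorem c_decide_not {p : α → Prop} {inst : ∀ a, Decidable (¬ p a)}
    (hp : Computable fun a => @decide (p a) (Classical.propDecidable _)) :
    Computable fun a => @decide (¬ p a) (inst a) :=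
  (c_not hp).of_eq fun a => by by_cases h : p a <;> simp [h]

@[fun_prop] theorem c_decide_and {p q : α → Prop} {inst : ∀ a, Decidable (p a ∧ q a)}
    (hp : Computable fun a => @decide (p a) (Classical.propDecidable _))
    (hq : Computable fun a => @decide (q a) (Classical.propDecidable _)) :
    Computable fun a => @decide (p a ∧ q a) (inst a) :=
  (c_and hp hq).of_eq fun a => by by_cases h : p a <;> by_cases h' : q a <;> simp [h, h']

@[fun_prop] theorem c_decide_or {p q : α → Prop} {inst : ∀ a, Decidable (p a ∨ q a)}
    (hp : Computable fun a => @decide (p a) (Classical.propDecidable _))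
    (hq : Computable fun a => @decide (q a) (Classical.propDecidable _)) :
    Computable fun a => @decide (p a ∨ q a) (inst a) :=
  (c_or hp hq).of_eq fun a => by by_cases h : p a <;> by_cases h' : q a <;> simp [h, h']

@[fun_prop] theorem c_ite {p : α → Prop} {inst : ∀ a, Decidable (p a)} {u v : α → σ}
    (hp : Computable fun a => @decide (p a) (inst a)) (hu : Computable u) (hv : Computable v) :
    Computable fun a => @ite σ (p a) (inst a) (u a) (v a) :=
  (Computable.cond hp hu hv).of_eq fun a => by by_cases h : p a <;> simp [h]

@[fun_prop] theorem c_some {f : α → β} (hf : Computable f) : Computable fun a => some (f a) :=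
  Computable.option_some.comp hf

@[fun_prop] theorem c_getD_opt {f : α → Option β} {g : α → β} (hf : Computable f)
    (hg : Computable g) : Computable fun a => (f a).getD (g a) := Computable.option_getD hf hg

@[fun_prop] theorem c_isSome {f : α → Option β} (hf : Computable f) :
    Computable fun a => (f a).isSome := Primrec.option_isSome.to_comp.comp hf

section List

variable {l l' : α → List β}

@[fun_prop] theorem c_cons {f : α → β} (hf : Computable f) (hl : Computable l) :
    Computable fun a => f a :: l a := Computable.list_cons.comp hf hl

@[fun_prop] theorem c_append (hl : Computable l) (hl' : Computable l') :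
    Computable fun a => l a ++ l' a := Computable.list_append.comp hl hl'

@[fun_prop] theorem c_length (hl : Computable l) : Computable fun a => (l a).length :=
  Computable.list_length.comp hl

@[fun_prop] theorem c_tail (hl : Computable l) : Computable fun a => (l a).tail :=
  Primrec.list_tail.to_comp.comp hl

@[fun_prop] theorem c_reverse (hl : Computable l) : Computable fun a => (l a).reverse :=
  Computable.list_reverse.comp hl

@[fun_prop] theorem c_take {n : α → ℕ} (hn : Computable n) (hl : Computable l) :
    Computable fun a => (l a).take (n a) := Primrec.list_take.to_comp.comp hn hl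

@[fun_prop] theorem c_drop {n : α → ℕ} (hn : Computable n) (hl : Computable l) :
    Computable fun a => (l a).drop (n a) := Primrec.list_drop.to_comp.comp hn hl

@[fun_prop] theorem c_getElem? {n : α → ℕ} (hl : Computable l) (hn : Computable n) :
    Computable fun a => (l a)[n a]? := Computable.list_getElem?.comp hl hn

@[fun_prop] theorem c_getD {n : α → ℕ} {d : α → β} (hl : Computable l) (hn : Computable n)
    (hd : Computable d) : Computable fun a => (l a).getD (n a) (d a) :=
  (c_getD_opt (c_getElem? hl hn) hd).of_eq fun _ => by simp

@[fun_prop] theorem c_headD {d : α → β} (hl : Computable l) (hd : Computable d) :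
    Computable fun a => (l a).headD (d a) :=
  (c_getD hl (c_const 0) hd).of_eq fun a => by cases l a <;> simp

@[fun_prop] theorem c_foldr {g : α → σ} {h : α → β → σ → σ} (hl : Computable l)
    (hg : Computable g) (hh : Computable fun p : α × β × σ => h p.1 p.2.1 p.2.2) :
    Computable fun a => (l a).foldr (h a) (g a) := by
  have h1 : Computable₂ fun (a : α) (p : ℕ × σ) =>
      Option.casesOn (motive := fun _ => σ) ((l a).reverse[p.1]?) p.2 fun b => h a b p.2 :=
    Computable.option_casesOn (o := fun q : α × ℕ × σ => (l q.1).reverse[q.2.1]?)
      (f := fun q : α × ℕ × σ => q.2.2) (g := fun (q : α × ℕ × σ) (b : β) => h q.1 b q.2.2)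
      (by fun_prop) (by fun_prop)
      (hh.comp (g := fun r : (α × ℕ × σ) × β => (r.1.1, r.2, r.1.2.2)) (by fun_prop))
  refine (Computable.nat_rec (c_length hl) hg h1).of_eq fun a => ?_
  have : ∀ i ≤ (l a).length, Nat.rec (motive := fun _ => σ) (g a) (fun y IH =>
      Option.casesOn (motive := fun _ => σ) ((l a).reverse[y]?) IH fun b => h a b IH) i =
      ((l a).reverse.take i).reverse.foldr (h a) (g a) := by
    intro i hi
    induction i with
    | zero => simp
    | succ i ih =>
      have h2 : i < (l a).reverse.length := by simp; omega
      rw [List.take_add_one, List.reverse_append, List.foldr_append, ← ih (by omega),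
        List.getElem?_eq_getElem h2]
      simp only [List.getElem?_eq_getElem h2]
      rfl
  have h3 := this _ le_rfl
  rw [List.take_of_length_le (by simp), List.reverse_reverse] at h3
  exact h3

@[fun_prop] theorem c_map {g : α → β → σ} (hl : Computable l)
    (hg : Computable fun p : α × β => g p.1 p.2) : Computable fun a => (l a).map (g a) :=
  (c_foldr (g := fun _ => ([] : List σ)) (h := fun a b r => g a b :: r) hl (c_const _)
    (c_cons (hg.comp (g := fun p : α × β × List σ => (p.1, p.2.1)) (by fun_prop))
      (by fun_prop))).of_eq fun a => by induction l a <;> simp [*]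

@[fun_prop] theorem c_sum {l : α → List ℕ} (hl : Computable l) : Computable fun a => (l a).sum :=
  (c_foldr (g := fun _ => 0) (h := fun _ b r => b + r) hl (c_const _) (by fun_prop)).of_eq
    fun a => by induction l a <;> simp [*]

@[fun_prop] theorem c_prod {l : α → List ℕ} (hl : Computable l) : Computable fun a => (l a).prod :=
  (c_foldr (g := fun _ => 1) (h := fun _ b r => b * r) hl (c_const _) (by fun_prop)).of_eq
    fun a => by induction l a <;> simp [*]

@[fun_prop] theorem c_all {p : α → β → Bool} (hl : Computable l)
    (hp : Computable fun q : α × β => p q.1 q.2) : Computable fun a => (l a).all (p a) :=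
  (c_foldr (g := fun _ => true) (h := fun a b r => p a b && r) hl (c_const _)
    (c_and (hp.comp (g := fun p : α × β × Bool => (p.1, p.2.1)) (by fun_prop))
      (by fun_prop))).of_eq fun a => by induction l a <;> simp [*]

@[fun_prop] theorem c_decide_mem {f : α → β} {inst : ∀ a, Decidable (f a ∈ l a)}
    (hf : Computable f) (hl : Computable l) :
    Computable fun a => @decide (f a ∈ l a) (inst a) := by
  classical
  have h : PrimrecRel fun (L : List β) (b : β) => ∃ x ∈ L, x = b := Primrec.eq.exists_mem_list
  exact (h.decide.to_comp.comp hl hf).of_eq fun _ => decide_eq_decide.2 (by simp)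

end List

@[fun_prop] theorem c_iterate {n : α → ℕ} {g : α → σ} {h : α → σ → σ} (hn : Computable n)
    (hg : Computable g) (hh : Computable fun p : α × σ => h p.1 p.2) :
    Computable fun a => (h a)^[n a] (g a) := by
  have h1 : Computable₂ fun (a : α) (p : ℕ × σ) => h a p.2 :=
    hh.comp (g := fun q : α × ℕ × σ => (q.1, q.2.2)) (by fun_prop)
  refine (Computable.nat_rec hn hg h1).of_eq fun a => ?_
  induction n a with
  | zero => rfl
  | succ k ih => rw [Function.iterate_succ_apply', ← ih]

end Pool.Agent.Shared.Oracle.FP
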