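import Mathlib

/-!
Closure properties of oracle computability, and the use principle.
-/

namespace Pool.Agent.Shared.Oracle

open Encodable Part

section Closure

variable {α β γ σ : Type*} [Primcodable α] [Primcodable β] [Primcodable γ] [Primcodable σ]
variable {O : Set (ℕ →. ℕ)}

theorem nat_some : Nat.RecursiveIn O Part.some := Nat.Partrec.recursiveIn Nat.Partrec.some

theorem nat_prec' {f g h : ℕ →. ℕ} (hf : Nat.RecursiveIn O f) (hg : Nat.RecursiveIn O g)
    (hh : Nat.RecursiveIn O h) :
    Nat.RecursiveIn O fun a => (f a).bind fun n => n.rec (g a)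
      fun y IH => do {let i ← IH; h (Nat.pair a (Nat.pair y i))} :=
  ((Nat.RecursiveIn.prec hg hh).comp (Nat.RecursiveIn.pair nat_some hf)).of_eq fun a =>
    Part.ext fun s => by simp [Seq.seq]

set_option backward.isDefEq.respectTransparency false in
theorem rec_bind {f : α →. β} {g : α → β →. σ} (hf : RecursiveIn O f)
    (hg : RecursiveIn₂ O g) : RecursiveIn O fun a => (f a).bind (g a) :=
  (Nat.RecursiveIn.comp hg (Nat.RecursiveIn.pair nat_some hf)).of_eq fun n => by
    rcases e : decode (α := α) n <;> simp [Seq.seq, e, encodek]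

theorem rec_map {f : α →. β} {g : α → β → σ} (hf : RecursiveIn O f) (hg : ComputableIn₂ O g) :
    RecursiveIn O fun a => (f a).map (g a) := by
  simpa [bind_some_eq_map] using rec_bind (g := fun a x => Part.some (g a x)) hf hg

theorem rec_comp {f : β →. σ} {g : α → β} (hf : RecursiveIn O f) (hg : ComputableIn O g) :
    RecursiveIn O fun a => f (g a) :=
  (Nat.RecursiveIn.comp hf hg).of_eq fun n => by
    simp only [map_some, bind_eq_bind]
    rcases e : decode (α := α) n with - | a <;> simp [encodek]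

theorem cin_of_eq {f g : α → σ} (hf : ComputableIn O f) (H : ∀ n, f n = g n) :
    ComputableIn O g :=
  (funext H : f = g) ▸ hf

theorem cin_comp {f : β → σ} {g : α → β} (hf : ComputableIn O f) (hg : ComputableIn O g) :
    ComputableIn O fun a => f (g a) :=
  rec_comp (f := fun b => Part.some (f b)) hf hg

theorem cin_pair {f : α → β} {g : α → γ} (hf : ComputableIn O f) (hg : ComputableIn O g) :
    ComputableIn O fun a => (f a, g a) :=
  (Nat.RecursiveIn.pair hf hg).of_eq fun n => by cases decode (α := α) n <;> simp [Seq.seq]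

theorem cin_comp₂ {f : β → γ → σ} {g : α → β} {h : α → γ} (hf : ComputableIn₂ O f)
    (hg : ComputableIn O g) (hh : ComputableIn O h) : ComputableIn O fun a => f (g a) (h a) :=
  cin_comp (f := fun p : β × γ => f p.1 p.2) hf (cin_pair hg hh)

theorem rec_nat_rec {f : α → ℕ} {g : α →. σ} {h : α → ℕ × σ →. σ} (hf : ComputableIn O f)
    (hg : RecursiveIn O g) (hh : RecursiveIn₂ O h) :
    RecursiveIn O fun a => (f a).rec (g a) fun y IH => IH.bind fun i => h a (y, i) :=
  (nat_prec' hf hg hh).of_eq fun n => by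
    rcases e : decode (α := α) n with - | a
    · simp
    · simp only [coe_some, bind_some, map_some, encode_nat]
      induction f a <;> simp_all

theorem cin_nat_rec {f : α → ℕ} {g : α → σ} {h : α → ℕ × σ → σ} (hf : ComputableIn O f)
    (hg : ComputableIn O g) (hh : ComputableIn₂ O h) :
    ComputableIn O fun a => Nat.rec (motive := fun _ => σ) (g a) (fun y IH => h a (y, IH)) (f a) :=
  (rec_nat_rec (h := fun a p => Part.some (h a p)) hf hg hh).of_eq fun a => by
    beta_reduce
    induction f a <;> simp [*]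

set_option backward.isDefEq.respectTransparency false in
theorem rec_rfind {p : α → ℕ →. Bool} (hp : RecursiveIn₂ O p) :
    RecursiveIn O fun a => Nat.rfind (p a) :=
  (Nat.RecursiveIn.rfind <|
        rec_map hp ((Primrec.dom_bool fun b => cond b 0 1).comp
          Primrec.snd).to₂.computableIn₂).of_eq
    fun n => by
    rcases e : decode (α := α) n <;> simp [e, Nat.rfind_zero_none, map_map, map_id']

theorem cin_find {P : α → ℕ → Bool} (hP : ComputableIn₂ O P) (hex : ∀ a, ∃ n, P a n = true) :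
    ComputableIn O fun a => Nat.find (hex a) := by
  have h : RecursiveIn O (fun a => Nat.rfind fun n => Part.some (P a n)) := rec_rfind hP
  refine h.of_eq_tot fun a => ?_
  simp only [Nat.mem_rfind, mem_some_iff]
  refine ⟨(Nat.find_spec (hex a)).symm, fun {m} hm => ?_⟩
  have := Nat.find_min (hex a) hm
  simpa using this

theorem cin_cond {c : α → Bool} {f g : α → σ} (hc : ComputableIn O c) (hf : ComputableIn O f)
    (hg : ComputableIn O g) : ComputableIn O fun a => cond (c a) (f a) (g a) := by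
  have h : Computable fun p : Bool × σ × σ => cond p.1 p.2.1 p.2.2 :=
    Computable.cond Computable.fst (Computable.fst.comp Computable.snd)
      (Computable.snd.comp Computable.snd)
  exact cin_comp h.computableIn (cin_pair hc (cin_pair hf hg))

theorem cin_subst {O' : Set (ℕ →. ℕ)} {f : α → σ} (hf : ComputableIn O f)
    (hO : ∀ g ∈ O, RecursiveIn O' g) : ComputableIn O' f :=
  RecursiveIn.subst hf hO

end Closure

/-- The oracle given by a set of naturals, as a zero-one valued function. -/
def orc (X : ℕ → Bool) : ℕ →. ℕ := fun n => Part.some (X n).toNat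

/-- The initial segment of length `k`. -/
def seg (X : ℕ → Bool) (k : ℕ) : List Bool := (List.range k).map X

@[simp] theorem seg_length (X : ℕ → Bool) (k : ℕ) : (seg X k).length = k := by simp [seg]

theorem seg_succ (X : ℕ → Bool) (k : ℕ) : seg X (k + 1) = seg X k ++ [X k] := by
  simp [seg, List.range_succ]

theorem seg_getElem? (X : ℕ → Bool) (k i : ℕ) :
    (seg X k)[i]? = if i < k then Option.some (X i) else Option.none := by
  unfold seg
  split_ifs with h
  · simp [h]
  · simp [not_lt.1 h]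

theorem seg_prefix (X : ℕ → Bool) {k l : ℕ} (h : k ≤ l) : seg X k <+: seg X l := by
  induction l, h using Nat.le_induction with
  | base => exact List.prefix_refl _
  | succ l _ ih => rw [seg_succ]; exact ih.trans (List.prefix_append _ _)

theorem seg_take (X : ℕ → Bool) {k l : ℕ} (h : k ≤ l) : (seg X l).take k = seg X k := by
  have h2 := List.prefix_iff_eq_take.1 (seg_prefix X h)
  rw [seg_length] at h2
  exact h2.symm

theorem seg_congr {X Y : ℕ → Bool} {k : ℕ} : seg X k = seg Y k ↔ ∀ i < k, X i = Y i := by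
  unfold seg
  rw [List.map_inj_left]
  simp

theorem orc_iff {O : Set (ℕ →. ℕ)} {X : ℕ → Bool} :
    RecursiveIn O (orc X) ↔ ComputableIn O X := by
  constructor
  · intro h
    have h1 : ComputableIn O fun n => (X n).toNat := h
    have h2 : Primrec fun n : ℕ => decide (n = 1) :=
      (Primrec.eq.comp Primrec.id (Primrec.const 1)).decide
    exact cin_of_eq (cin_comp h2.computableIn h1) fun n => by cases X n <;> rfl
  · intro h
    exact cin_comp (Primrec.dom_bool Bool.toNat).computableIn h

theorem cin_orc {O : Set (ℕ →. ℕ)} {X : ℕ → Bool} (h : orc X ∈ O) : ComputableIn O X :=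
  orc_iff.1 (RecursiveIn.oracle _ h)

theorem cin_seg {O : Set (ℕ →. ℕ)} {X : ℕ → Bool} (h : ComputableIn O X) :
    ComputableIn O (seg X) := by
  have h1 : ComputableIn₂ O fun (_ : ℕ) (p : ℕ × List Bool) => p.2 ++ [X p.1] :=
    cin_comp₂ (f := fun (l : List Bool) (a : Bool) => l ++ [a])
      Primrec.list_concat.computableIn₂ (Primrec.snd.comp Primrec.snd).computableIn
      (cin_comp h (Primrec.fst.comp Primrec.snd).computableIn)
  refine cin_of_eq (cin_nat_rec ComputableIn.id (ComputableIn.const ([] : List Bool)) h1) ?_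
  intro k
  induction k with
  | zero => rfl
  | succ k ih => rw [seg_succ, ← ih]; rfl

/-- A monotone partial recursive functional on finite binary strings. -/
structure Functional (F : List Bool → ℕ →. ℕ) : Prop where
  partrec : Partrec₂ F
  mono : ∀ ⦃σ τ : List Bool⦄, σ <+: τ → ∀ ⦃n v : ℕ⦄, v ∈ F σ n → v ∈ F τ n

theorem Functional.of_partrec {f : ℕ →. ℕ} (hf : Nat.Partrec f) : Functional fun _ => f :=
  ⟨(Partrec.nat_iff.2 hf).comp Computable.snd, fun _ _ _ _ _ h => h⟩

/-- The use principle. -/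
theorem use_principle {X : ℕ → Bool} {f : ℕ →. ℕ} (hf : Nat.RecursiveIn {orc X} f) :
    ∃ F, Functional F ∧ ∀ n v, v ∈ f n ↔ ∃ k, v ∈ F (seg X k) n := by
  induction hf with
  | zero => exact ⟨_, .of_partrec .zero, fun n v => ⟨fun h => ⟨0, h⟩, fun ⟨_, h⟩ => h⟩⟩
  | succ => exact ⟨_, .of_partrec .succ, fun n v => by simp⟩
  | left => exact ⟨_, .of_partrec .left, fun n v => by simp⟩
  | right => exact ⟨_, .of_partrec .right, fun n v => by simp⟩
  | oracle g hg =>
    obtain rfl : g = orc X := hg
    refine ⟨fun σ n => (((σ[n]?).map Bool.toNat : Option ℕ) : Part ℕ), ⟨?_, ?_⟩, ?_⟩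
    · exact Computable.ofOption
        (Primrec.option_map Primrec.list_getElem?
          ((Primrec.dom_bool Bool.toNat).comp Primrec.snd).to₂).to_comp
    · rintro σ τ ⟨ρ, rfl⟩ n v h
      simp only [mem_coe, Option.mem_def, Option.map_eq_some_iff] at h ⊢
      obtain ⟨b, hb, rfl⟩ := h
      refine ⟨b, ?_, rfl⟩
      rw [List.getElem?_append_left (List.getElem?_eq_some_iff.1 hb).1]; exact hb
    · intro n v
      simp only [orc, mem_some_iff, mem_coe, Option.mem_def, Option.map_eq_some_iff, seg_getElem?]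
      constructor
      · rintro rfl
        exact ⟨n + 1, X n, by simp, rfl⟩
      · rintro ⟨k, b, hb, rfl⟩
        split_ifs at hb
        simp only [Option.some.injEq] at hb
        rw [hb]
  | pair _ _ ih₁ ih₂ =>
    obtain ⟨F₁, hF₁, e₁⟩ := ih₁
    obtain ⟨F₂, hF₂, e₂⟩ := ih₂
    refine ⟨fun σ n => (F₁ σ n).bind fun a => (F₂ σ n).map fun b => Nat.pair a b, ⟨?_, ?_⟩, ?_⟩
    · exact Partrec.bind hF₁.partrec (Partrec.map (Partrec.comp hF₂.partrec Computable.fst)
        (Primrec₂.natPair.comp (Primrec.snd.comp Primrec.fst) Primrec.snd).to₂.to_comp).to₂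
    · intro σ τ h n v hv
      simp only [mem_bind_iff, mem_map_iff] at hv ⊢
      obtain ⟨a, ha, b, hb, rfl⟩ := hv
      exact ⟨a, hF₁.mono h ha, b, hF₂.mono h hb, rfl⟩
    · intro n v
      simp only [Seq.seq, map_eq_map, mem_bind_iff, mem_map_iff, e₁, e₂]
      constructor
      · rintro ⟨_, ⟨a, ⟨k, ha⟩, rfl⟩, b, ⟨l, hb⟩, rfl⟩
        exact ⟨max k l, a, hF₁.mono (seg_prefix X (le_max_left _ _)) ha, b,
          hF₂.mono (seg_prefix X (le_max_right _ _)) hb, rfl⟩
      · rintro ⟨k, a, ha, b, hb, rfl⟩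
        exact ⟨_, ⟨a, ⟨k, ha⟩, rfl⟩, b, ⟨k, hb⟩, rfl⟩
  | comp _ _ ih₁ ih₂ =>
    obtain ⟨F₁, hF₁, e₁⟩ := ih₁
    obtain ⟨F₂, hF₂, e₂⟩ := ih₂
    refine ⟨fun σ n => (F₂ σ n).bind fun a => F₁ σ a, ⟨?_, ?_⟩, ?_⟩
    · exact Partrec.bind hF₂.partrec
        (hF₁.partrec.comp (Computable.fst.comp Computable.fst) Computable.snd).to₂
    · intro σ τ h n v hv
      simp only [mem_bind_iff] at hv ⊢
      obtain ⟨a, ha, hb⟩ := hv
      exact ⟨a, hF₂.mono h ha, hF₁.mono h hb⟩
    · intro n v
      simp only [bind_eq_bind, mem_bind_iff, e₁, e₂]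
      constructor
      · rintro ⟨a, ⟨k, ha⟩, l, hb⟩
        exact ⟨max k l, a, hF₂.mono (seg_prefix X (le_max_left _ _)) ha,
          hF₁.mono (seg_prefix X (le_max_right _ _)) hb⟩
      · rintro ⟨k, a, ha, hb⟩
        exact ⟨a, ⟨k, ha⟩, k, hb⟩
  | prec _ _ ih₁ ih₂ =>
    obtain ⟨F₁, hF₁, e₁⟩ := ih₁
    obtain ⟨F₂, hF₂, e₂⟩ := ih₂
    refine ⟨fun σ p => (Nat.unpair p).2.rec (F₁ σ (Nat.unpair p).1) fun y IH =>
      IH.bind fun i => F₂ σ (Nat.pair (Nat.unpair p).1 (Nat.pair y i)), ⟨?_, ?_⟩, ?_⟩
    · have h1 : Computable fun q : List Bool × ℕ => (Nat.unpair q.2).2 :=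
        (Primrec.snd.comp (Primrec.unpair.comp Primrec.snd)).to_comp
      have h2 : Computable fun q : List Bool × ℕ => (Nat.unpair q.2).1 :=
        (Primrec.fst.comp (Primrec.unpair.comp Primrec.snd)).to_comp
      have h3 : Partrec₂ fun (q : List Bool × ℕ) (r : ℕ × ℕ) =>
          F₂ q.1 (Nat.pair (Nat.unpair q.2).1 (Nat.pair r.1 r.2)) :=
        (hF₂.partrec.comp (Computable.fst.comp Computable.fst)
          (Primrec₂.natPair.to_comp.comp (h2.comp Computable.fst)
            (Primrec₂.natPair.to_comp.comp (Computable.fst.comp Computable.snd)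
              (Computable.snd.comp Computable.snd)))).to₂
      exact Partrec.nat_rec h1 (hF₁.partrec.comp Computable.fst h2) h3
    · intro σ τ h p
      generalize (Nat.unpair p).2 = m
      induction m with
      | zero => intro v hv; exact hF₁.mono h hv
      | succ m ih =>
        intro v hv
        simp only [mem_bind_iff] at hv ⊢
        obtain ⟨a, ha, hb⟩ := hv
        exact ⟨a, ih ha, hF₂.mono h hb⟩
    · intro p
      have hm : ∀ {σ τ : List Bool}, σ <+: τ → ∀ (m : ℕ) (v : ℕ),
          v ∈ (m.rec (F₁ σ (Nat.unpair p).1) fun y IH =>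
            IH.bind fun i => F₂ σ (Nat.pair (Nat.unpair p).1 (Nat.pair y i)) : Part ℕ) →
          v ∈ (m.rec (F₁ τ (Nat.unpair p).1) fun y IH =>
            IH.bind fun i => F₂ τ (Nat.pair (Nat.unpair p).1 (Nat.pair y i)) : Part ℕ) := by
        intro σ τ h m
        induction m with
        | zero => intro v hv; exact hF₁.mono h hv
        | succ m ih =>
          intro v hv
          simp only [mem_bind_iff] at hv ⊢
          obtain ⟨a, ha, hb⟩ := hv
          exact ⟨a, ih _ ha, hF₂.mono h hb⟩
      simp only [bind_eq_bind]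
      generalize (Nat.unpair p).2 = m
      induction m with
      | zero => intro v; exact e₁ _ v
      | succ m ih =>
        intro v
        simp only [mem_bind_iff, ih, e₂]
        constructor
        · rintro ⟨a, ⟨k, ha⟩, l, hb⟩
          exact ⟨max k l, a, hm (seg_prefix X (le_max_left _ _)) _ _ ha,
            hF₂.mono (seg_prefix X (le_max_right _ _)) hb⟩
        · rintro ⟨k, a, ha, hb⟩
          exact ⟨a, ⟨k, ha⟩, k, hb⟩
  | rfind _ ih =>
    obtain ⟨F, hF, e⟩ := ih
    refine ⟨fun σ a => Nat.rfind fun n => (F σ (Nat.pair a n)).map fun m => decide (m = 0),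
      ⟨?_, ?_⟩, ?_⟩
    · refine Partrec.rfind (p := fun (q : List Bool × ℕ) n =>
        (F q.1 (Nat.pair q.2 n)).map fun m => decide (m = 0)) ?_
      exact (Partrec.map (hF.partrec.comp (Computable.fst.comp Computable.fst)
        (Primrec₂.natPair.to_comp.comp (Computable.snd.comp Computable.fst) Computable.snd))
        (Primrec.eq.comp Primrec.snd (Primrec.const 0)).decide.to₂.to_comp).to₂
    · intro σ τ h n v hv
      simp only [Nat.mem_rfind, mem_map_iff] at hv ⊢
      obtain ⟨⟨a, ha, ea⟩, hb⟩ := hv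
      refine ⟨⟨a, hF.mono h ha, ea⟩, fun {m} hm => ?_⟩
      obtain ⟨b, hb, eb⟩ := hb hm
      exact ⟨b, hF.mono h hb, eb⟩
    · intro a v
      simp only [map_eq_map, Nat.mem_rfind, mem_map_iff, e]
      constructor
      · rintro ⟨⟨x, ⟨k, hx⟩, ex⟩, hb⟩
        have hb' : ∀ m : Fin v, ∃ l, ∃ y ∈ F (seg X l) (Nat.pair a m), decide (y = 0) = false := by
          intro m
          obtain ⟨y, ⟨l, hy⟩, ey⟩ := hb m.2
          exact ⟨l, y, hy, ey⟩
        choose l hl using hb'
        obtain ⟨L, hL⟩ := (Set.finite_range l).bddAbove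
        refine ⟨max k L, ⟨x, hF.mono (seg_prefix X (le_max_left _ _)) hx, ex⟩, fun {m} hm => ?_⟩
        obtain ⟨y, hy, ey⟩ := hl ⟨m, hm⟩
        exact ⟨y, hF.mono (seg_prefix X ((hL ⟨_, rfl⟩).trans (le_max_right _ _))) hy, ey⟩
      · rintro ⟨k, ⟨x, hx, ex⟩, hb⟩
        refine ⟨⟨x, ⟨k, hx⟩, ex⟩, fun {m} hm => ?_⟩
        obtain ⟨y, hy, ey⟩ := hb hm
        exact ⟨y, ⟨k, hy⟩, ey⟩

end Pool.Agent.Shared.Oracle
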